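import Pool.Agent.Lib_helper53.PIB.Digits

set_option autoImplicit false

namespace Pool.Agent.Lib_helper53.Superseded.PowersOfABase

open Filter

/-- The number of distinct blocks of length `n` in the base `b` digits of the fractional part of `ξ`
(for `ξ = π` literally the expression of the frozen statement of the problem). -/
noncomputable def blocks (ξ : ℝ) (b n : ℕ) : ℕ :=
  (Set.range (fun i : ℕ =>
    (fun j : Fin n => ⌊ξ * (b : ℝ) ^ (i + (j : ℕ) + 1)⌋₊ % b))).ncard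

/-- (1) For every integer `a ≥ 2`, all but finitely many powers `b = a ^ k` satisfy the assertion of
Q1: `p(n, π, b) - n → ∞`.
(2) For every irrational `ξ > 0` and every `a ≥ 2`: either `p(n, ξ, a ^ k) - n → ∞` for all
`k ≥ 1`, or there is `g ≥ 1` such that for `k ∣ g` the number `p(n, ξ, a ^ k)` is `n + c` for all
large `n`, and for `k ∤ g` it is at least `2 n - 1` for all `n ≥ 1`. -/
theorem result :
    (∀ a : ℕ, 2 ≤ a → ∃ K : ℕ, ∀ k : ℕ, K ≤ k →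
      Tendsto (fun n : ℕ => (blocks Real.pi (a ^ k) n : ℤ) - (n : ℤ)) atTop atTop) ∧
    (∀ ξ : ℝ, 0 < ξ → Irrational ξ → ∀ a : ℕ, 2 ≤ a →
      (∀ k : ℕ, 1 ≤ k →
        Tendsto (fun n : ℕ => (blocks ξ (a ^ k) n : ℤ) - (n : ℤ)) atTop atTop) ∨
      ∃ g : ℕ, 1 ≤ g ∧ ∀ k : ℕ, 1 ≤ k →
        (k ∣ g → ∃ c n₀ : ℕ, ∀ n : ℕ, n₀ ≤ n → blocks ξ (a ^ k) n = n + c) ∧
        (¬ k ∣ g → ∀ n : ℕ, 1 ≤ n → 2 * n - 1 ≤ blocks ξ (a ^ k) n)) := by
  have h2 : ∀ ξ : ℝ, 0 < ξ → Irrational ξ → ∀ a : ℕ, 2 ≤ a →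
      (∀ k : ℕ, 1 ≤ k →
        Tendsto (fun n : ℕ => (blocks ξ (a ^ k) n : ℤ) - (n : ℤ)) atTop atTop) ∨
      ∃ g : ℕ, 1 ≤ g ∧ ∀ k : ℕ, 1 ≤ k →
        (k ∣ g → ∃ c n₀ : ℕ, ∀ n : ℕ, n₀ ≤ n → blocks ξ (a ^ k) n = n + c) ∧
        (¬ k ∣ g → ∀ n : ℕ, 1 ≤ n → 2 * n - 1 ≤ blocks ξ (a ^ k) n) := by
    intro ξ h0 hξ a ha
    exact Pool.Agent.Lib_helper53.PIB.main h0 hξ ha
  refine ⟨fun a ha => ?_, h2⟩
  rcases h2 Real.pi Real.pi_pos irrational_pi a ha with h | ⟨g, hg, h⟩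
  · exact ⟨1, fun k hk => h k hk⟩
  · refine ⟨g + 1, fun k hk => ?_⟩
    have hkg : ¬ k ∣ g := fun hd => by
      have := Nat.le_of_dvd (by omega) hd
      omega
    have h3 := (h k (by omega)).2 hkg
    rw [tendsto_atTop]
    intro z
    filter_upwards [eventually_ge_atTop (z.toNat + 1)] with n hn
    have h4 := h3 n (by omega)
    omega

end Pool.Agent.Lib_helper53.Superseded.PowersOfABase
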